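import Pool.Agent.DPT.Main

set_option autoImplicit false

namespace Pool.Agent.Results.MP_30ac48_nt.AlmostAllPairs

open Pool.Agent.DPT

/-- Almost all Diophantine pairs `{a, b}` are contained in no Diophantine triple at all whose induced
elliptic curve has torsion group `ℤ/2 × ℤ/6`. -/
theorem result : ∃ C : ℝ, 0 < C ∧ ∀ R : ℕ, 16 ≤ R →
    ((exceptional R).card : ℝ) ≤
      C * (pairs R).card / Real.log (Real.log (R : ℝ)) ^ (1 / 16 : ℝ) :=
  main

end Pool.Agent.Results.MP_30ac48_nt.AlmostAllPairs
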