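import Pool.Agent.Helper77.DT.Full

set_option autoImplicit false

namespace Pool.Agent.Results.MP_30ac48_nt.DifferenceTwo

open Pool.Agent.Helper51.Tors Pool.Agent.Helper77.DT

/-- No Diophantine triple `{a, a + 2, c}` induces an elliptic curve with torsion group
`ℤ/2 × ℤ/6`. -/
theorem result (a c : ℕ) (ha : 0 < a) (hc : 0 < c) (h1 : IsSquare (a * c + 1))
    (h2 : IsSquare ((a + 2) * c + 1)) :
    ¬ Nonempty
        (↥(AddCommGroup.torsion
            (WeierstrassCurve.mk (0 : ℚ)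
              ((a : ℚ) * (a + 2 : ℕ) + (a : ℚ) * c + ((a + 2 : ℕ) : ℚ) * c) 0
              ((a : ℚ) * (a + 2 : ℕ) * c * ((a : ℚ) + (a + 2 : ℕ) + c))
              (((a : ℚ) * (a + 2 : ℕ) * c) ^ 2)).toAffine.Point)
          ≃+ (ZMod 2 × ZMod 6)) := by
  intro htors
  obtain ⟨u, v, w, d, h⟩ := data_of_torsion a (a + 2) c htors
  obtain ⟨l, F⟩ := Fam.of_data h ha hc h1 h2
  exact F.elim

end Pool.Agent.Results.MP_30ac48_nt.DifferenceTwo
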