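import Pool.Agent.Helper51.Tors.FromTorsion

set_option autoImplicit false

namespace Pool.Agent.Results.MP_30ac48_nt.GcdShape

open Pool.Agent.Helper51.Tors

/-- If a Diophantine triple `a < b < c` of positive integers induces an elliptic curve with
torsion `ℤ/2 × ℤ/6`, then `gcd(ab, ac, bc)` is `48k²` or `144k²` for some `k ≥ 1`. -/
theorem result (a b c : ℕ) (ha : 0 < a) (hab : a < b) (hbc : b < c)
    (h1 : IsSquare (a * b + 1)) (h2 : IsSquare (a * c + 1)) (h3 : IsSquare (b * c + 1))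
    (htors : Nonempty
        (↥(AddCommGroup.torsion
            (WeierstrassCurve.mk (0 : ℚ)
              ((a : ℚ) * b + (a : ℚ) * c + (b : ℚ) * c) 0
              ((a : ℚ) * b * c * ((a : ℚ) + b + c))
              (((a : ℚ) * b * c) ^ 2)).toAffine.Point)
          ≃+ (ZMod 2 × ZMod 6))) :
    ∃ k : ℕ, 0 < k ∧ (Nat.gcd (a * b) (Nat.gcd (a * c) (b * c)) = 48 * k ^ 2 ∨
      Nat.gcd (a * b) (Nat.gcd (a * c) (b * c)) = 144 * k ^ 2) := by
  obtain ⟨u, v, w, d, h⟩ := data_of_torsion a b c htors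
  exact h.main ha (by omega) (by omega) h1 h2 h3

end Pool.Agent.Results.MP_30ac48_nt.GcdShape
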