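import Pool.Agent.PWS.Main

set_option autoImplicit false

namespace Pool.Agent.Results.MP_30ac48_nt.PowerSaving

open Pool.Agent.PWS

/-- Ordered by the largest element, almost all Diophantine triples which are not regular do not have torsion
`ℤ/2 × ℤ/6`, with a power saving: at most `O(N^(1/4 + ε))` triples `a < b < c ≤ N` have this torsion group, a
proportion `O(N^(-1/12 + ε))` of the triples `a < b < c ≤ N` which are not regular. -/
theorem result (ε : ℝ) (hε : 0 < ε) : ∃ K : ℝ, ∀ N : ℕ, 128 ≤ N →
    ((exceptional N).card : ℝ) ≤ K * (N : ℝ) ^ (1 / 4 + ε) ∧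
    ((exceptional N).card : ℝ) ≤ 8 * K * (N : ℝ) ^ (-1 / 12 + ε) * ((irregular N).card : ℝ) :=
  main hε

end Pool.Agent.Results.MP_30ac48_nt.PowerSaving
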